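import Pool.Agent.W227.FC.Growth

/-!
# MP_d5a1e1_nt: bases of order `h` of low factor complexity

Let `p_A(L)` be the number of different blocks of `L` consecutive terms of the characteristic
sequence of `A ⊆ ℕ`, and let `r_{A,h}(n)` be the number of representations of `n` as a sum of `h`
elements of `A`, the order of the summands being disregarded (multisets of `h` elements of `A`).

1. Let `A` be an asymptotic basis of order `h ≥ 2` with `r_{A,h} ≤ K`.  Then `p_A(L) > L ^ γ` for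
   infinitely many `L`, for every `γ ≥ 1` with `γ ^ (2 K - 1) (1 - 1 / h) < 1`.
2. Hence the conjecture of Erdos and Turan holds, for every `h ≥ 2`, for all asymptotic bases `A`
   of order `h` with `p_A(L) ≤ L ^ (1 + o(1))`.  More generally `r_{A,h}` is unbounded, for every
   `h ≥ 2`, if `A` contains a set `B` with `p_B(L) ≤ L ^ (1 + o(1))` which has at least `N ^ α`
   elements below `N` for arbitrarily large `N`, for some `α > 0`.
-/

set_option autoImplicit false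

open Filter

namespace Pool.Agent.Results.MP_d5a1e1_nt.FactorComplexity

/-- `r_{A,h}(n)`: the number of multisets of `h` elements of `A` with sum `n`. -/
noncomputable def rep (A : Set ℕ) (h n : ℕ) : ℕ :=
  {M : Multiset ℕ | M.card = h ∧ (∀ x ∈ M, x ∈ A) ∧ M.sum = n}.ncard

/-- `A` is an asymptotic basis of order `h`: all but finitely many natural numbers are sums of
`h` elements of `A`. -/
def IsBasis (A : Set ℕ) (h : ℕ) : Prop :=
  {n : ℕ | ¬ ∃ M : Multiset ℕ, M.card = h ∧ (∀ x ∈ M, x ∈ A) ∧ M.sum = n}.Finite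

/-- The factor complexity `p_A(L)`: the number of different subsets
`{i | 0 ≤ i < L, s + i ∈ A}` of `{0, ..., L - 1}`, for `s = 0, 1, 2, ...`. -/
noncomputable def complexity (A : Set ℕ) (L : ℕ) : ℕ :=
  (Set.range (fun s : ℕ => {i : Fin L | s + (i : ℕ) ∈ A})).ncard

/-- `p_B(L) ≤ L ^ (1 + o(1))`. -/
def LowComplexity (B : Set ℕ) : Prop :=
  ∀ ε : ℝ, 0 < ε → ∀ᶠ L : ℕ in atTop, (complexity B L : ℝ) ≤ (L : ℝ) ^ (1 + ε)

theorem general (A B : Set ℕ) (h K : ℕ) (α γ : ℝ) (hh : 2 ≤ h) (hBA : B ⊆ A)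
    (hK : ∀ n, rep A h n ≤ K) (hγ : 1 ≤ γ) (hK1 : 1 ≤ K) (hm : γ ^ (2 * K - 1) * (1 - α) < 1)
    (hB : ∃ᶠ N : ℕ in atTop, (N : ℝ) ^ α ≤ (B ∩ Set.Iio N).ncard) :
    ∃ᶠ L : ℕ in atTop, (L : ℝ) ^ γ < complexity B L := by
  by_contra hcon
  rw [not_frequently] at hcon
  have hp : ∀ᶠ L : ℕ in atTop, (Pool.Agent.W227.FC.complexity B L : ℝ) ≤ (L : ℝ) ^ γ := by
    filter_upwards [hcon] with L hL
    exact not_lt.1 hL
  obtain ⟨a, l, hl, hpos, hc⟩ := Pool.Agent.W227.FC.cube_of_complexity hγ hp hB (2 * K - 1) hm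
  rw [show 2 * K - 1 + 1 = 2 * K by omega] at hl
  obtain ⟨n, hn⟩ := Pool.Agent.W227.FC.rep_multi hl hpos
    (Pool.Agent.W227.FC.cubeSet_mono hBA l hc) h hh
  have := hK n
  unfold rep at this
  omega

theorem basis_freq {A : Set ℕ} {h : ℕ} (hh : 2 ≤ h) (hA : IsBasis A h) {α : ℝ}
    (hα : α < 1 / (h : ℝ)) :
    ∃ᶠ N : ℕ in atTop, (N : ℝ) ^ α ≤ (A ∩ Set.Iio N).ncard := by
  refine Pool.Agent.W227.FC.freq_of_basis (h := h) (by omega) ?_ hα
  obtain ⟨b, hb⟩ := hA.bddAbove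
  filter_upwards [eventually_gt_atTop b] with n hn
  have h1 : ∃ M : Multiset ℕ, M.card = h ∧ (∀ x ∈ M, x ∈ A) ∧ M.sum = n := by
    by_contra h2
    have : n ≤ b := hb h2
    omega
  obtain ⟨M, h2, h3, h4⟩ := h1
  exact Pool.Agent.W227.FC.tuple_of_multi h2 h3 h4

theorem result :
    (∀ (A : Set ℕ) (h K : ℕ), 2 ≤ h → 1 ≤ K → IsBasis A h → (∀ n, rep A h n ≤ K) →
      ∀ γ : ℝ, 1 ≤ γ → γ ^ (2 * K - 1) * (1 - 1 / (h : ℝ)) < 1 →
        ∃ᶠ L : ℕ in atTop, (L : ℝ) ^ γ < complexity A L) ∧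
    (∀ (A : Set ℕ) (h : ℕ), 2 ≤ h → IsBasis A h → LowComplexity A →
      ∀ K : ℕ, ∃ n, K < rep A h n) ∧
    (∀ (A B : Set ℕ) (α : ℝ), B ⊆ A → LowComplexity B → 0 < α →
      (∃ᶠ N : ℕ in atTop, (N : ℝ) ^ α ≤ (B ∩ Set.Iio N).ncard) →
      ∀ h : ℕ, 2 ≤ h → ∀ K : ℕ, ∃ n, K < rep A h n) := by
  have h3 : ∀ (A B : Set ℕ) (α : ℝ), B ⊆ A → LowComplexity B → 0 < α →
      (∃ᶠ N : ℕ in atTop, (N : ℝ) ^ α ≤ (B ∩ Set.Iio N).ncard) →
      ∀ h : ℕ, 2 ≤ h → ∀ K : ℕ, ∃ n, K < rep A h n := by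
    intro A B α hBA hlow hα hfreq h hh K
    by_contra hcon
    push Not at hcon
    obtain ⟨ε, hε, hm⟩ := Pool.Agent.W227.FC.exists_gamma hα (2 * (K + 1) - 1)
    have h1 := general A B h (K + 1) α (1 + ε) hh hBA (fun n => le_trans (hcon n) (by omega))
      (by linarith) (by omega) hm hfreq
    obtain ⟨L, hL1, hL2⟩ := (h1.and_eventually (hlow ε hε)).exists
    linarith
  refine ⟨?_, ?_, h3⟩
  · intro A h K hh hK1 hA hK γ hγ hm
    have hpos : 0 < γ ^ (2 * K - 1) := by positivity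
    have h1 : 1 - 1 / γ ^ (2 * K - 1) < 1 / (h : ℝ) := by
      have : 1 - 1 / (h : ℝ) < 1 / γ ^ (2 * K - 1) := by
        rw [lt_div_iff₀ hpos]
        linarith
      linarith
    obtain ⟨α, hα1, hα2⟩ := exists_between h1
    refine general A A h K α γ hh (le_refl _) hK hγ hK1 ?_ (basis_freq hh hA hα2)
    have h2 : 1 - α < 1 / γ ^ (2 * K - 1) := by linarith
    rw [lt_div_iff₀ hpos] at h2
    linarith
  · intro A h hh hA hlow K
    have hh0 : (0 : ℝ) < h := by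
      have : 0 < h := by omega
      exact_mod_cast this
    refine h3 A A (1 / (2 * (h : ℝ))) (le_refl _) hlow (by positivity)
      (basis_freq hh hA ?_) h hh K
    rw [div_lt_div_iff₀ (by positivity) hh0]
    linarith

end Pool.Agent.Results.MP_d5a1e1_nt.FactorComplexity
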