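import Pool.Agent.W20.ET.Mult2

/-!
# The Erdős–Turán conjecture for bases with many multipliers

`r A h n` is the number of representations of `n` as a sum of `h` elements of `A`, the order of the
summands being disregarded.  A positive integer `m` is a multiplier of `A` if `m a ∈ A` for all
`a ∈ A`.  An asymptotic basis `A` of order `h ≥ 2` has an unbounded representation function
`r A h` in each of the following cases.

1. `A` is a set of positive integers closed under multiplication.
2. `A` has infinitely many pairwise coprime multipliers `m_i > 1`, and `0 ∉ A` or no `m_i` lies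
   in `A`.  (For instance: a set of positive integers closed under multiplication by all perfect
   `d`-th powers, for some `d`.)

Method.  If `m` is a multiplier, then `r A h (m n) ≥ r A h n`: representations can be scaled.
Scaling the representations of the multipliers `m_1, …, m_t` themselves one gets representations of
the product `m_1 ⋯ m_t`, and these are different unless the representations of `m_i` and `m_j` are
proportional.  So if `r A h ≤ K`, there are at most `K` classes of proportional representations for
all multipliers; for pairwise coprime multipliers proportionality is impossible, and for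
multiplicatively closed sets it forces all prime factors of the elements of `A` to be bounded.
-/

set_option autoImplicit false

namespace Pool.Agent.Results.MP_d5a1e1_nt.ManyMultipliers

/-- The number of unordered representations of `n` as a sum of `h` elements of `A`. -/
noncomputable def r (A : Set ℕ) (h n : ℕ) : ℕ :=
  Set.ncard {s : Multiset ℕ | Multiset.card s = h ∧ (∀ a ∈ s, a ∈ A) ∧ s.sum = n}

/-- `A` is an asymptotic basis of order `h`. -/
def IsBasis (A : Set ℕ) (h : ℕ) : Prop :=
  ∃ n₀ : ℕ, ∀ n : ℕ, n₀ ≤ n →
    ∃ s : Multiset ℕ, Multiset.card s = h ∧ (∀ a ∈ s, a ∈ A) ∧ s.sum = n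

/-- `m` is a multiplier of `A`. -/
def IsMultiplier (A : Set ℕ) (m : ℕ) : Prop := ∀ a ∈ A, m * a ∈ A

/-- **The Erdős–Turán conjecture for bases with many multipliers.** -/
theorem result (h : ℕ) (hh : 2 ≤ h) (A : Set ℕ) (hA : IsBasis A h)
    (hM : (0 ∉ A ∧ ∀ m ∈ A, IsMultiplier A m) ∨
      (∃ m : ℕ → ℕ, (∀ i, 1 < m i) ∧ (∀ i j, i ≠ j → Nat.Coprime (m i) (m j)) ∧
        (∀ i, IsMultiplier A (m i)) ∧ (0 ∉ A ∨ ∀ i, m i ∉ A))) :
    ∀ K : ℕ, ∃ n : ℕ, K < r A h n := by
  classical
  obtain ⟨n₀, hA⟩ := hA
  intro K
  rcases hM with ⟨h0, hmul⟩ | ⟨m, h1, hco, hm, h0⟩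
  · by_contra hcon
    push Not at hcon
    exact Pool.Agent.W20.ET.mul_closed A h hh h0 hmul n₀ hA K hcon
  · have hinj : Function.Injective m := by
      intro i j hij
      by_contra hne
      have h2 := hco i j hne
      rw [hij, Nat.coprime_self] at h2
      have := h1 j
      omega
    have hlarge : ∃ S : Finset ℕ, S.card = K + 1 ∧ ∀ i ∈ S, n₀ ≤ m i := by
      have hf : {i : ℕ | m i < n₀}.Finite := by
        refine Set.Finite.of_finite_image ((Set.finite_Iio n₀).subset ?_) hinj.injOn
        rintro x ⟨i, hi, rfl⟩
        exact hi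
      have hinf : {i : ℕ | n₀ ≤ m i}.Infinite := by
        have : {i : ℕ | n₀ ≤ m i} = {i : ℕ | m i < n₀}ᶜ := by
          ext i
          simp
        rw [this]
        exact hf.infinite_compl
      obtain ⟨S, hS, hc⟩ := hinf.exists_subset_card_eq (K + 1)
      exact ⟨S, hc, fun i hi => hS hi⟩
    obtain ⟨S, hc, hS⟩ := hlarge
    refine ⟨∏ i ∈ S, m i, ?_⟩
    have := Pool.Agent.W20.ET.coprime_count A h m S hh hm h1 hco h0
      (fun i hi => hA (m i) (hS i hi))
    have h3 : r A h (∏ i ∈ S, m i) = (Pool.Agent.W20.ET.reps A h (∏ i ∈ S, m i)).ncard := rfl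
    omega

end Pool.Agent.Results.MP_d5a1e1_nt.ManyMultipliers
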