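import Pool.Agent.W167.ET.Uniform
import Pool.Agent.W167.ET.Bounded

/-!
# MP_d5a1e1_nt: arbitrarily slow random perturbations of bases of any order

Let `h ≥ 2`, and let `a_n` be the `n`-th element of an asymptotic basis `A` of order `h`, or more
generally any sequence with `a_n ≤ C (n + 1) ^ h`.  Let `w_n ≤ C (n + 1) ^ h` be nondecreasing and
unbounded, growing as slowly as we like.

1. If `ε_n` are independent random integers in `[0, w_n]` with `P(ε_n = j) ≤ B / (w_n + 1)`, then
   almost surely the set `{a_n + ε_n}` has unbounded unordered representation function of order `h`.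
   In particular this holds for almost every choice of shifts in `∏ {0, …, w_n}`.
2. The same for the elements of an asymptotic basis.
3. The condition `w_n → ∞` is sharp: for *every* choice of bounded shifts `0 ≤ x_n ≤ w` the
   representation function of order `h` of `{a_n + x_n}` is bounded if and only if that of `{a_n}`
   is.

Method (`Pool.Agent.W167.ET`).  Consider blocks `[N, (h+1)N)` on which `w` changes at most by a
constant factor; put `W = w_N`.  By the pigeonhole principle some interval of length `W` contains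
`≥ κ W` sums of `h`-tuples, one index from each of `h` disjoint parts of the block.  One shows by
induction on `k` that whenever an interval of length `O(W)` contains `≫ W` sums of such `k`-tuples,
some integer has `K` representations by the shifted block with a probability bounded below: either
`≫ W` elements lie in an interval of length `O(W)`, or `≫ W` sums of `(k-1)`-tuples do (induction),
or else, after freezing all parts but the first, the elements of the first part hit suitable targets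
independently with a total intensity bounded below and coincidences are rare.  The blocks are
independent.
-/

set_option autoImplicit false

open MeasureTheory ProbabilityTheory

namespace Pool.Agent.Results.MP_d5a1e1_nt.SlowPerturbations

/-- `rep A h n` is the number of unordered representations of `n` as a sum of `h` elements of
`A`. -/
noncomputable def rep (A : Set ℕ) (h n : ℕ) : ℕ :=
  Set.ncard {s : Multiset ℕ | Multiset.card s = h ∧ (∀ a ∈ s, a ∈ A) ∧ s.sum = n}

/-- `A` is an asymptotic basis of order `h`. -/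
def IsBasis (A : Set ℕ) (h : ℕ) : Prop :=
  ∃ N, ∀ n, N ≤ n → ∃ s : Multiset ℕ, Multiset.card s = h ∧ (∀ a ∈ s, a ∈ A) ∧ s.sum = n

/-- The product of the uniform probability measures on `{0, …, w n}`. -/
noncomputable def unif (w : ℕ → ℕ) : Measure (∀ n, Fin (w n + 1)) :=
  Measure.infinitePi fun n => (PMF.uniformOfFintype (Fin (w n + 1))).toMeasure

theorem slow (h : ℕ) (hh : 2 ≤ h) (a w : ℕ → ℕ) (C : ℕ) (ha : ∀ n, a n ≤ C * (n + 1) ^ h)
    (hw : Monotone w) (hw' : ∀ b, ∃ n, b ≤ w n) (hwC : ∀ n, w n ≤ C * (n + 1) ^ h) :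
    (∀ (Ω : Type) (_ : MeasurableSpace Ω) (μ : Measure Ω) (ε : ℕ → Ω → ℕ) (B : ℝ),
        iIndepFun ε μ → (∀ n, Measurable (ε n)) → (∀ n ω, ε n ω ≤ w n) →
        (∀ n j, μ.real {ω | ε n ω = j} ≤ B / (w n + 1)) →
        ∀ᵐ ω ∂μ, ∀ K, ∃ m, K ≤ rep (Set.range fun n => a n + ε n ω) h m) ∧
      (∀ᵐ x ∂(unif w), ∀ K, ∃ m, K ≤ rep (Set.range fun n => a n + (x n : ℕ)) h m) := by
  refine ⟨?_, ?_⟩
  · intro Ω _ μ ε B h1 h2 h3 h4
    exact Pool.Agent.W167.ET.slow (a := a) (B := B) ⟨h1, h2, h3, h4⟩ h C hh ha hw hw' hwC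
  · exact Pool.Agent.W167.ET.slow (a := a) (Pool.Agent.W167.ET.pert_unif w) h C hh ha hw hw' hwC

theorem result :
    ∀ h : ℕ, 2 ≤ h →
    (∀ (a w : ℕ → ℕ) (C : ℕ), (∀ n, a n ≤ C * (n + 1) ^ h) →
      Monotone w → (∀ b, ∃ n, b ≤ w n) → (∀ n, w n ≤ C * (n + 1) ^ h) →
      (∀ (Ω : Type) (_ : MeasurableSpace Ω) (μ : Measure Ω) (ε : ℕ → Ω → ℕ) (B : ℝ),
        iIndepFun ε μ → (∀ n, Measurable (ε n)) → (∀ n ω, ε n ω ≤ w n) →
        (∀ n j, μ.real {ω | ε n ω = j} ≤ B / (w n + 1)) →
        ∀ᵐ ω ∂μ, ∀ K, ∃ m, K ≤ rep (Set.range fun n => a n + ε n ω) h m) ∧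
      (∀ᵐ x ∂(unif w), ∀ K, ∃ m, K ≤ rep (Set.range fun n => a n + (x n : ℕ)) h m)) ∧
    (∀ (A : Set ℕ) (w : ℕ → ℕ) (C : ℕ), IsBasis A h →
      Monotone w → (∀ b, ∃ n, b ≤ w n) → (∀ n, w n ≤ C * (n + 1) ^ h) →
      (∀ (Ω : Type) (_ : MeasurableSpace Ω) (μ : Measure Ω) (ε : ℕ → Ω → ℕ) (B : ℝ),
        iIndepFun ε μ → (∀ n, Measurable (ε n)) → (∀ n ω, ε n ω ≤ w n) →
        (∀ n j, μ.real {ω | ε n ω = j} ≤ B / (w n + 1)) →
        ∀ᵐ ω ∂μ, ∀ K, ∃ m, K ≤ rep (Set.range fun n => Nat.nth (· ∈ A) n + ε n ω) h m) ∧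
      (∀ᵐ x ∂(unif w), ∀ K, ∃ m,
        K ≤ rep (Set.range fun n => Nat.nth (· ∈ A) n + (x n : ℕ)) h m)) ∧
    (∀ (a x : ℕ → ℕ) (w : ℕ), (∀ n, x n ≤ w) →
      ((∃ R, ∀ m, rep (Set.range a) h m ≤ R) ↔
        (∃ R, ∀ m, rep (Set.range fun n => a n + x n) h m ≤ R))) := by
  intro h hh
  refine ⟨fun a w C ha hw hw' hwC => slow h hh a w C ha hw hw' hwC, ?_, ?_⟩
  · intro A w C hA hw hw' hwC
    obtain ⟨n0, hn0⟩ := hA
    obtain ⟨_, hg⟩ := Pool.Agent.W167.ET.basis_growth A h n0 hn0
    apply slow h hh _ w (n0 + 1 + C) _ hw hw' _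
    · intro n
      refine (hg n).trans (Nat.mul_le_mul_right _ (Nat.le_add_right _ _))
    · intro n
      refine (hwC n).trans (Nat.mul_le_mul_right _ (Nat.le_add_left _ _))
  · intro a x w hx
    exact Pool.Agent.W167.ET.bounded_shift a x w h hx

end Pool.Agent.Results.MP_d5a1e1_nt.SlowPerturbations
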