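import Pool.Agent.W14.SM.Main

/-!
# The Erdős–Turán conjecture for small random perturbations of bases

`r A h n` is the number of representations of `n` as a sum of `h` elements of `A`, the order of the
summands being disregarded.

Every element `a` of a set `A` is moved, independently of the others, to `a + ξ a`, where `ξ a` is a
random natural number with the following property: each of the values `0, 1, …, w a` has probability
at least `a ^ (-ε)`, for every `ε > 0` and all large `a` (for example, `ξ a` is uniformly
distributed on `{0, …, w a}` and `w a = a ^ o(1)`; or, `ξ a = 0` unless `a` belongs to a random set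
of density about `a ^ (-o(1))`).  Let `A'` be the set obtained in this way.

* If `A` is an asymptotic basis of order `h` and `w a → ∞`, then `r A' h` is almost surely
  unbounded, however slowly `w` grows.
* Quantitatively: if `A` has at least `(x / C) ^ (1 / h)` elements below `x` for arbitrarily large
  `x` and `w a ≥ c K ^ h` for all large `a`, where `c = c(h, C)`, then almost surely
  `r A' h n ≥ K` for some `n`.

For bounded `w` the first statement would be as strong as the conjecture itself: see
`Pool.Agent.W14.SM.bounded_iff` (in the file `Pool/Agent/W14/SM/Bdd.lean`).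

Method.  Among `M` elements of `A` below `C M ^ h` the pigeonhole principle and the sunflower lemma
give a set `G` of at most `2 h K` elements that contains `K` sets of `h` elements with sums in an
interval of length `w / 2` and with pairwise disjoint differences to a common kernel; the elements
of `G` can be moved by at most `w` so that these sums become equal and the multisets of the new
summands different.  There are at least `M ^ (1 - o(1))` disjoint groups `G` of this kind, and each
of them moves in the required way with probability at least `M ^ (-o(1))`.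
-/

set_option autoImplicit false

open Filter MeasureTheory ProbabilityTheory

namespace Pool.Agent.Results.MP_d5a1e1_nt.SmallPerturbations

/-- The number of unordered representations of `n` as a sum of `h` elements of `A`. -/
noncomputable def r (A : Set ℕ) (h n : ℕ) : ℕ :=
  Set.ncard {s : Multiset ℕ | Multiset.card s = h ∧ (∀ a ∈ s, a ∈ A) ∧ s.sum = n}

/-- `A` is an asymptotic basis of order `h`. -/
def IsBasis (A : Set ℕ) (h : ℕ) : Prop :=
  ∃ n₀ : ℕ, ∀ n : ℕ, n₀ ≤ n →
    ∃ s : Multiset ℕ, Multiset.card s = h ∧ (∀ a ∈ s, a ∈ A) ∧ s.sum = n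

/-- `ξ 0, ξ 1, …` are independent random natural numbers; for every `ε > 0` and all large `a`,
each of the values `0, 1, …, w a` of `ξ a` has probability at least `a ^ (-ε)`. -/
structure Spread {Ω : Type} [MeasurableSpace Ω] (μ : Measure Ω) (w : ℕ → ℕ) (ξ : ℕ → Ω → ℕ) :
    Prop where
  meas : ∀ a, Measurable (ξ a)
  indep : iIndepFun ξ μ
  atom : ∀ ε : ℝ, 0 < ε → ∀ᶠ a : ℕ in atTop, ∀ k ≤ w a, (a : ℝ) ^ (-ε) ≤ μ.real {ω | ξ a ω = k}

/-- **The Erdős–Turán conjecture for small random perturbations of bases.** -/
theorem result (h : ℕ) (hh : 2 ≤ h) :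
    (∀ A : Set ℕ, IsBasis A h → ∀ w : ℕ → ℕ, Tendsto w atTop atTop →
      ∀ (Ω : Type) [MeasurableSpace Ω] (μ : Measure Ω) [IsProbabilityMeasure μ] (ξ : ℕ → Ω → ℕ),
        Spread μ w ξ → ∀ᵐ ω ∂μ, ∀ K : ℕ, ∃ n, K < r {m | ∃ a ∈ A, m = a + ξ a ω} h n) ∧
    (∀ C : ℕ, ∃ c : ℕ, ∀ A : Set ℕ,
      (∃ᶠ x : ℕ in atTop, x ≤ C * (A ∩ Set.Iio x).ncard ^ h) → ∀ (w : ℕ → ℕ) (K : ℕ),
      (∀ᶠ a : ℕ in atTop, c * K ^ h ≤ w a) →
      ∀ (Ω : Type) [MeasurableSpace Ω] (μ : Measure Ω) [IsProbabilityMeasure μ] (ξ : ℕ → Ω → ℕ),
        Spread μ w ξ → ∀ᵐ ω ∂μ, ∃ n, K ≤ r {m | ∃ a ∈ A, m = a + ξ a ω} h n) := by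
  constructor
  · intro A hA w hw Ω _ μ _ ξ hξ
    rw [ae_all_iff]
    intro K
    have h1 := Pool.Agent.W14.SM.sets (μ := μ) h hh 2 A
      (Pool.Agent.W14.SM.basis_dense hA).frequently w ξ hξ.meas hξ.indep hξ.atom (K + 1)
      (hw.eventually (eventually_ge_atTop _))
    filter_upwards [h1] with ω hω
    exact hω
  · intro C
    refine ⟨Pool.Agent.W14.SM.cst h C, fun A hA w K hw Ω _ μ _ ξ hξ => ?_⟩
    exact Pool.Agent.W14.SM.sets (μ := μ) h hh C A hA w ξ hξ.meas hξ.indep hξ.atom K hw

end Pool.Agent.Results.MP_d5a1e1_nt.SmallPerturbations
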